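import Pool.Agent.ASD.Stmts4
import Pool.Agent.Helper62_ASO.LBS
import Pool.Agent.Helper9_ASO.MBI

/-!
# Squad ASD, row LBX: the total sum in terms of the weighted numbers

Adapted from `Helper62_ASO/LBS.lean`.
-/

open scoped BigOperators

set_option autoImplicit false

noncomputable section

namespace Pool.Agent.PP.SD.H72

open Pool.Agent.Helper51_AWC Pool.Agent.Helper79_WRA Pool.Agent.PP Pool.Agent.PP.KF
open Pool.Agent.PP.K9 Pool.Agent.PP.K9.H97 Pool.Agent.PP.H75 Pool.Agent.PP.T3 Pool.Agent.PP.SO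
open Pool.Agent.PP.SO.H62 (finXX eqA eqB Iv NN NN_one NN_two c13_iv c12_iv sum_types comm_of_mem)

attribute [local instance] Ideal.Quotient.field

section wts

variable {V₀ G : Type} [CommGroup V₀] [Finite V₀] [Group G] [Finite G]
  {M : Ideal (integralClosure ℤ ℂ)} [M.IsMaximal]

theorem sup_top {ℓ : ℕ} (hℓ : ℓ.Prime) {E₀ : Subgroup (MulAut V₀)} (hFr : Fq ℓ V₀ E₀) {c : V₀}
    (hc : c ≠ 1) {P : Subgroup V₀} (hP : ¬ P ≤ Subgroup.zpowers c) :
    P ⊔ Subgroup.zpowers c = ⊤ := by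
  have : Fact ℓ.Prime := ⟨hℓ⟩
  have ho : orderOf c = ℓ := orderOf_eq_prime (hFr.ex c) hc
  have h1 : Nat.card (Subgroup.zpowers c) = ℓ := by rw [Nat.card_zpowers, ho]
  have h2 : Subgroup.zpowers c < P ⊔ Subgroup.zpowers c := by
    refine lt_of_le_of_ne le_sup_right fun h => hP ?_
    rw [h]
    exact le_sup_left
  have h3 : Nat.card (Subgroup.zpowers c) ∣ Nat.card (P ⊔ Subgroup.zpowers c : Subgroup V₀) :=
    Subgroup.card_dvd_of_le h2.le
  have h4 : Nat.card (P ⊔ Subgroup.zpowers c : Subgroup V₀) ∣ ℓ ^ 2 := by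
    rw [← hFr.cd]
    exact Subgroup.card_subgroup_dvd_card _
  obtain ⟨k, hk, hk2⟩ := (Nat.dvd_prime_pow hℓ).1 h4
  apply Subgroup.eq_top_of_card_eq
  rw [hFr.cd]
  have h5 : k = 2 := by
    have h6 : Nat.card (P ⊔ Subgroup.zpowers c : Subgroup V₀) ≠ ℓ := by
      intro h7
      have h8 := Subgroup.eq_of_le_of_card_ge h2.le (by rw [h7, h1])
      exact h2.ne h8
    interval_cases k
    · exfalso
      rw [hk2, pow_zero, h1] at h3
      exact hℓ.one_lt.ne' (Nat.dvd_one.1 h3)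
    · exfalso
      rw [hk2, pow_one] at h6
      exact h6 rfl
    · rfl
  rw [hk2, h5]

open Classical in
/-- the key lemma for one variable -/
theorem one_var {ℓ : ℕ} (hℓ : ℓ.Prime) {E₀ : Subgroup (MulAut V₀)} (hFr : Fq ℓ V₀ E₀)
    (B : Bk (FF M) V₀ G) [Fintype G] {c : V₀} (hc : c ≠ 1) (P : Subgroup V₀) (Y : G → ℂ)
    (hY : P ≤ Subgroup.zpowers c → ∀ z ∈ B.C (Subgroup.zpowers c), ∀ s, Y (z * s * z⁻¹) = Y s) :
    ∑ f : Bool, (if P ≤ frm c f then ∑ s, wtD E₀ B c f s * Y s else 0) =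
      ((kf E₀ P c : ℚ) : ℂ) * ((Nat.card (B.C (P ⊔ Subgroup.zpowers c)) : ℂ)⁻¹ *
        ∑ s, bh B (P ⊔ Subgroup.zpowers c) s * Y s) := by
  rw [Fintype.sum_bool]
  have ht : P ≤ frm c true := by
    show P ≤ (⊤ : Subgroup V₀)
    exact le_top
  rw [if_pos ht]
  have hwt : ∀ s, wtD E₀ B c true s = ((kE E₀ c : ℂ) * Nat.card (B.C ⊤))⁻¹ * bh B ⊤ s :=
    fun s => rfl
  by_cases hP : P ≤ Subgroup.zpowers c
  · have hf : P ≤ frm c false := hP
    have hk : kf E₀ P c = 1 := by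
      unfold kf
      rw [if_pos hP]
    rw [if_pos hf, sup_eq_right.2 hP, hk, Rat.cast_one, one_mul]
    have := Fintype.ofFinite (B.C (Subgroup.zpowers c))
    have hwf : ∀ s, wtD E₀ B c false s = (Nat.card (B.C (Subgroup.zpowers c)) : ℂ)⁻¹ *
        (bh B (Subgroup.zpowers c) s - ((kE E₀ c : ℂ) * Nat.card (B.C ⊤))⁻¹ *
          ∑ z : B.C (Subgroup.zpowers c), bh B ⊤ ((z : G)⁻¹ * s * z)) := by
      intro s
      rw [← finsum_eq_sum_of_fintype]
      rfl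
    have h1 : ∑ s, (∑ z : B.C (Subgroup.zpowers c), bh B ⊤ ((z : G)⁻¹ * s * z)) * Y s =
        Nat.card (B.C (Subgroup.zpowers c)) * ∑ s, bh B ⊤ s * Y s := by
      simp only [Finset.sum_mul]
      rw [Finset.sum_comm]
      have h2 : ∀ z : B.C (Subgroup.zpowers c), ∑ s, bh B ⊤ ((z : G)⁻¹ * s * z) * Y s =
          ∑ s, bh B ⊤ s * Y s := by
        intro z
        rw [← Equiv.sum_comp (MulAut.conj (z : G)).toEquiv]
        refine Finset.sum_congr rfl fun s _ => ?_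
        have e1 : (MulAut.conj (z : G)).toEquiv s = z * s * (z : G)⁻¹ := rfl
        rw [e1, hY hP z z.2]
        have e2 : (z : G)⁻¹ * (z * s * (z : G)⁻¹) * z = s := by group
        rw [e2]
      rw [Finset.sum_congr rfl fun z _ => h2 z, Finset.sum_const, nsmul_eq_mul, Finset.card_univ,
        Nat.card_eq_fintype_card]
    have h3 : (Nat.card (B.C (Subgroup.zpowers c)) : ℂ) ≠ 0 := by
      exact_mod_cast Nat.card_pos.ne'
    obtain ⟨K, hK⟩ : ∃ K : ℂ, K = ((kE E₀ c : ℂ) * Nat.card (B.C ⊤))⁻¹ := ⟨_, rfl⟩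
    rw [← hK] at hwf hwt
    have h4 : ∑ s, wtD E₀ B c false s * Y s = (Nat.card (B.C (Subgroup.zpowers c)) : ℂ)⁻¹ *
        (∑ s, bh B (Subgroup.zpowers c) s * Y s) - K *
          ∑ s, bh B ⊤ s * Y s := by
      have h5 : ∀ s, wtD E₀ B c false s * Y s = (Nat.card (B.C (Subgroup.zpowers c)) : ℂ)⁻¹ *
          (bh B (Subgroup.zpowers c) s * Y s) - (Nat.card (B.C (Subgroup.zpowers c)) : ℂ)⁻¹ *
          K *
          ((∑ z : B.C (Subgroup.zpowers c), bh B ⊤ ((z : G)⁻¹ * s * z)) * Y s) := by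
        intro s
        rw [hwf]
        ring
      rw [Finset.sum_congr rfl fun s _ => h5 s, Finset.sum_sub_distrib, ← Finset.mul_sum,
        ← Finset.mul_sum, h1]
      field_simp
    have h6 : ∑ s, wtD E₀ B c true s * Y s = K * ∑ s, bh B ⊤ s * Y s := by
      rw [Finset.mul_sum]
      refine Finset.sum_congr rfl fun s _ => ?_
      rw [hwt]
      ring
    rw [h4, h6]
    ring
  · have hf : ¬ P ≤ frm c false := hP
    have hk : ((kf E₀ P c : ℚ) : ℂ) = (kE E₀ c : ℂ)⁻¹ := by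
      unfold kf
      rw [if_neg hP]
      push_cast
      rfl
    rw [if_neg hf, add_zero, sup_top hℓ hFr hc hP, hk, Finset.mul_sum, Finset.mul_sum]
    refine Finset.sum_congr rfl fun s _ => ?_
    rw [hwt, mul_inv]
    ring

open Classical in
/-- the two variables together -/
theorem two_var {ℓ : ℕ} (hℓ : ℓ.Prime) {E₀ : Subgroup (MulAut V₀)} (hFr : Fq ℓ V₀ E₀)
    (B : Bk (FF M) V₀ G) [Fintype G] {c d : V₀} (hc : c ≠ 1) (hd : d ≠ 1) (P Q : Subgroup V₀)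
    (Y : G → G → ℂ)
    (hY1 : P ≤ Subgroup.zpowers c → ∀ z ∈ B.C (Subgroup.zpowers c), ∀ s t,
      Y (z * s * z⁻¹) t = Y s t)
    (hY2 : Q ≤ Subgroup.zpowers d → ∀ z ∈ B.C (Subgroup.zpowers d), ∀ s t,
      Y s (z * t * z⁻¹) = Y s t) :
    ∑ f : Bool, ∑ f' : Bool, (if P ≤ frm c f ∧ Q ≤ frm d f' then
      ∑ s, ∑ t, wtD E₀ B c f s * wtD E₀ B d f' t * Y s t else 0) =
      ((kf E₀ P c * kf E₀ Q d : ℚ) : ℂ) * (((Nat.card (B.C (P ⊔ Subgroup.zpowers c)) : ℂ) *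
        Nat.card (B.C (Q ⊔ Subgroup.zpowers d)))⁻¹ *
        ∑ s, ∑ t, bh B (P ⊔ Subgroup.zpowers c) s * bh B (Q ⊔ Subgroup.zpowers d) t * Y s t) := by
  have h1 : ∀ s, ∑ f' : Bool, (if Q ≤ frm d f' then ∑ t, wtD E₀ B d f' t * Y s t else 0) =
      ((kf E₀ Q d : ℚ) : ℂ) * ((Nat.card (B.C (Q ⊔ Subgroup.zpowers d)) : ℂ)⁻¹ *
        ∑ t, bh B (Q ⊔ Subgroup.zpowers d) t * Y s t) := fun s =>
    one_var hℓ hFr B hd Q (Y s) fun h z hz t => hY2 h z hz s t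
  have h2 := one_var hℓ hFr B hc P (fun s => ((kf E₀ Q d : ℚ) : ℂ) *
      ((Nat.card (B.C (Q ⊔ Subgroup.zpowers d)) : ℂ)⁻¹ *
        ∑ t, bh B (Q ⊔ Subgroup.zpowers d) t * Y s t)) (fun h z hz s => by
      show _ * (_ * _) = _ * (_ * _)
      simp only [hY1 h z hz])
  have h3 : ∀ f : Bool, ∑ f' : Bool, (if P ≤ frm c f ∧ Q ≤ frm d f' then
      ∑ s, ∑ t, wtD E₀ B c f s * wtD E₀ B d f' t * Y s t else 0) =
      if P ≤ frm c f then ∑ s, wtD E₀ B c f s * (((kf E₀ Q d : ℚ) : ℂ) *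
        ((Nat.card (B.C (Q ⊔ Subgroup.zpowers d)) : ℂ)⁻¹ *
        ∑ t, bh B (Q ⊔ Subgroup.zpowers d) t * Y s t)) else 0 := by
    intro f
    by_cases hP : P ≤ frm c f
    · rw [if_pos hP]
      have h4 : ∀ s, wtD E₀ B c f s * (((kf E₀ Q d : ℚ) : ℂ) *
          ((Nat.card (B.C (Q ⊔ Subgroup.zpowers d)) : ℂ)⁻¹ *
          ∑ t, bh B (Q ⊔ Subgroup.zpowers d) t * Y s t)) =
          ∑ f' : Bool, wtD E₀ B c f s *
            (if Q ≤ frm d f' then ∑ t, wtD E₀ B d f' t * Y s t else 0) := by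
        intro s
        rw [← h1 s, Finset.mul_sum]
      rw [Finset.sum_congr rfl fun s _ => h4 s, Finset.sum_comm]
      refine Finset.sum_congr rfl fun f' _ => ?_
      by_cases hQ : Q ≤ frm d f'
      · rw [if_pos ⟨hP, hQ⟩]
        refine Finset.sum_congr rfl fun s _ => ?_
        rw [if_pos hQ, Finset.mul_sum]
        refine Finset.sum_congr rfl fun t _ => ?_
        ring
      · rw [if_neg fun h => hQ h.2]
        symm
        refine Finset.sum_eq_zero fun s _ => ?_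
        rw [if_neg hQ, mul_zero]
    · rw [if_neg hP]
      refine Finset.sum_eq_zero fun f' _ => ?_
      rw [if_neg fun h => hP h.1]
  rw [Finset.sum_congr rfl fun f _ => h3 f, h2, Finset.mul_sum, Finset.mul_sum, Finset.mul_sum,
    Finset.mul_sum]
  refine Finset.sum_congr rfl fun s _ => ?_
  rw [Finset.mul_sum, Finset.mul_sum, Finset.mul_sum, Finset.mul_sum, Finset.mul_sum,
    Finset.mul_sum, Finset.mul_sum]
  refine Finset.sum_congr rfl fun t _ => ?_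
  rw [mul_inv]
  push_cast
  ring

/-- the general form of the row -/
theorem gen {ℓ : ℕ} (hℓ : ℓ.Prime) {E₀ : Subgroup (MulAut V₀)} (hFr : Fq ℓ V₀ E₀)
    (mbi : MbiStmt) (B : Bk (FF M) V₀ G) {n : ℕ} {c d : V₀} (hc : c ≠ 1) (hd : d ≠ 1)
    {Cd : G → G → G → G → SO.SS n V₀ → Prop} (hC : Iv B.i Cd) (F : Set (SO.SS n V₀) → ℚ) :
    ∑ f : Bool, ∑ f' : Bool, ∑ᶠ w : G × G, wtD E₀ B c f w.1 * wtD E₀ B d f' w.2 *
      ((∑ᶠ z : XX (B.i c * w.1) (B.i d * w.2), F {σ | σ.2.2.1 ∈ frm c f ∧ σ.2.2.2 ∈ frm d f' ∧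
        Cd (B.i c * w.1) z.1.1 z.1.2.1 z.1.2.2 σ} : ℚ) : ℂ) =
    ∑ᶠ L : Set (SO.SS n V₀), (mob F L : ℂ) * (((kf E₀ (pL L) c * kf E₀ (qL L) d : ℚ) : ℂ) *
      (((Nat.card (B.C (pL L ⊔ Subgroup.zpowers c)) : ℂ) *
        Nat.card (B.C (qL L ⊔ Subgroup.zpowers d)))⁻¹ *
        ∑ᶠ w : G × G, bh B (pL L ⊔ Subgroup.zpowers c) w.1 *
          bh B (qL L ⊔ Subgroup.zpowers d) w.2 * NN Cd (B.i c * w.1) (B.i d * w.2) L)) := by
  classical
  have := Fintype.ofFinite G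
  have := Fintype.ofFinite (Set (SO.SS n V₀))
  rw [finsum_eq_sum_of_fintype]
  simp only [finsum_eq_sum_of_fintype (α := G × G), sum_types mbi Cd]
  have h1 : ∀ L : Set (SO.SS n V₀), ∑ f : Bool, ∑ f' : Bool, (if pL L ≤ frm c f ∧ qL L ≤ frm d f' then
      ∑ s, ∑ t, wtD E₀ B c f s * wtD E₀ B d f' t * (NN Cd (B.i c * s) (B.i d * t) L : ℂ) else 0) =
      ((kf E₀ (pL L) c * kf E₀ (qL L) d : ℚ) : ℂ) *
      (((Nat.card (B.C (pL L ⊔ Subgroup.zpowers c)) : ℂ) *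
        Nat.card (B.C (qL L ⊔ Subgroup.zpowers d)))⁻¹ *
        ∑ s, ∑ t, bh B (pL L ⊔ Subgroup.zpowers c) s * bh B (qL L ⊔ Subgroup.zpowers d) t *
          (NN Cd (B.i c * s) (B.i d * t) L : ℂ)) := by
    intro L
    refine two_var hℓ hFr B hc hd (pL L) (qL L) _ ?_ ?_
    · intro hP z hz s t
      have hcz := comm_of_mem B hz (Subgroup.mem_zpowers c)
      have e1 : B.i c * (z * s * z⁻¹) = z * (B.i c * s) * z⁻¹ := by
        rw [← mul_assoc, ← mul_assoc, ← hcz]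
        group
      rw [e1, NN_one hC]
      intro σ hσ
      exact comm_of_mem B hz (hP (Subgroup.subset_closure ⟨σ, hσ, rfl⟩))
    · intro hQ z hz s t
      have hdz := comm_of_mem B hz (Subgroup.mem_zpowers d)
      have e1 : B.i d * (z * t * z⁻¹) = z * (B.i d * t) * z⁻¹ := by
        rw [← mul_assoc, ← mul_assoc, ← hdz]
        group
      rw [e1, NN_two hC]
      intro σ hσ
      exact comm_of_mem B hz (hQ (Subgroup.subset_closure ⟨σ, hσ, rfl⟩))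
  have h2 : ∀ f f' : Bool, ∑ w : G × G, wtD E₀ B c f w.1 * wtD E₀ B d f' w.2 *
      ((∑ L : Set (SO.SS n V₀), mob F L * (if pL L ≤ frm c f ∧ qL L ≤ frm d f' then
        (NN Cd (B.i c * w.1) (B.i d * w.2) L : ℚ) else 0) : ℚ) : ℂ) =
      ∑ L : Set (SO.SS n V₀), (mob F L : ℂ) * (if pL L ≤ frm c f ∧ qL L ≤ frm d f' then
        ∑ s, ∑ t, wtD E₀ B c f s * wtD E₀ B d f' t * (NN Cd (B.i c * s) (B.i d * t) L : ℂ) else 0) := by
    intro f f'
    have e1 : ∀ w : G × G, wtD E₀ B c f w.1 * wtD E₀ B d f' w.2 *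
      ((∑ L : Set (SO.SS n V₀), mob F L * (if pL L ≤ frm c f ∧ qL L ≤ frm d f' then
        (NN Cd (B.i c * w.1) (B.i d * w.2) L : ℚ) else 0) : ℚ) : ℂ) =
      ∑ L : Set (SO.SS n V₀), (mob F L : ℂ) * (if pL L ≤ frm c f ∧ qL L ≤ frm d f' then
        wtD E₀ B c f w.1 * wtD E₀ B d f' w.2 * (NN Cd (B.i c * w.1) (B.i d * w.2) L : ℂ) else 0) := by
      intro w
      push_cast
      rw [Finset.mul_sum]
      refine Finset.sum_congr rfl fun L _ => ?_
      by_cases h : pL L ≤ frm c f ∧ qL L ≤ frm d f'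
      · rw [if_pos h, if_pos h]
        push_cast
        ring
      · rw [if_neg h, if_neg h]
        push_cast
        ring
    rw [Finset.sum_congr rfl fun w _ => e1 w, Finset.sum_comm]
    refine Finset.sum_congr rfl fun L _ => ?_
    rw [← Finset.mul_sum]
    congr 1
    by_cases h : pL L ≤ frm c f ∧ qL L ≤ frm d f'
    · rw [if_pos h, Finset.sum_congr rfl fun w _ => if_pos h, Fintype.sum_prod_type]
    · rw [if_neg h, Finset.sum_congr rfl fun w _ => if_neg h, Finset.sum_const_zero]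
  simp only [h2]
  have h3 : ∀ f : Bool, ∑ f' : Bool, ∑ L : Set (SO.SS n V₀), (mob F L : ℂ) *
      (if pL L ≤ frm c f ∧ qL L ≤ frm d f' then
        ∑ s, ∑ t, wtD E₀ B c f s * wtD E₀ B d f' t * (NN Cd (B.i c * s) (B.i d * t) L : ℂ) else 0) =
      ∑ L : Set (SO.SS n V₀), ∑ f' : Bool, (mob F L : ℂ) *
      (if pL L ≤ frm c f ∧ qL L ≤ frm d f' then
        ∑ s, ∑ t, wtD E₀ B c f s * wtD E₀ B d f' t * (NN Cd (B.i c * s) (B.i d * t) L : ℂ) else 0) :=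
    fun f => Finset.sum_comm
  rw [Finset.sum_congr rfl fun f _ => h3 f, Finset.sum_comm]
  refine Finset.sum_congr rfl fun L _ => ?_
  have h4 : ∑ f : Bool, ∑ f' : Bool, (mob F L : ℂ) *
      (if pL L ≤ frm c f ∧ qL L ≤ frm d f' then
        ∑ s, ∑ t, wtD E₀ B c f s * wtD E₀ B d f' t * (NN Cd (B.i c * s) (B.i d * t) L : ℂ) else 0) =
      (mob F L : ℂ) * ∑ f : Bool, ∑ f' : Bool, (if pL L ≤ frm c f ∧ qL L ≤ frm d f' then
        ∑ s, ∑ t, wtD E₀ B c f s * wtD E₀ B d f' t * (NN Cd (B.i c * s) (B.i d * t) L : ℂ) else 0) := by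
    rw [Finset.mul_sum]
    refine Finset.sum_congr rfl fun f _ => ?_
    rw [Finset.mul_sum]
  rw [h4, h1 L, Fintype.sum_prod_type]

end wts

/-- row LBX -/
theorem lbx : LbxStmt := by
  intro ℓ hfact M _ _ _ V₀ G _ _ _ _ E₀ hFr B _ n m c d hc hd F₁₃ F₁₂
  classical
  have hℓ : ℓ.Prime := Fact.out
  have h13 := gen hℓ hFr Pool.Agent.PP.SO.H9.mbi B hc hd (c13_iv (n := n) m B.i) F₁₃
  have h12 := gen hℓ hFr Pool.Agent.PP.SO.H9.mbi B hc hd (c12_iv (n := n) m B.i) F₁₂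
  have hsum : ∑ᶠ L : Set (SO.SS n V₀),
      ((mob F₁₃ L : ℚ) * ((kf E₀ (pL L) c * kf E₀ (qL L) d : ℚ) : ℂ) * W13 B m c d L +
      (mob F₁₂ L : ℚ) * ((kf E₀ (pL L) c * kf E₀ (qL L) d : ℚ) : ℂ) * W12 B m c d L) =
      ∑ᶠ L : Set (SO.SS n V₀), (mob F₁₃ L : ℂ) *
        (((kf E₀ (pL L) c * kf E₀ (qL L) d : ℚ) : ℂ) * W13 B m c d L) +
      ∑ᶠ L : Set (SO.SS n V₀), (mob F₁₂ L : ℂ) *
        (((kf E₀ (pL L) c * kf E₀ (qL L) d : ℚ) : ℂ) * W12 B m c d L) := by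
    rw [← finsum_add_distrib (Set.toFinite _) (Set.toFinite _)]
    refine finsum_congr fun L => ?_
    rw [mul_assoc, mul_assoc]
  rw [hsum]
  refine Eq.trans ?_ (congrArg₂ (· + ·) h13 h12)
  unfold TSD
  show _ = _ + _
  rw [← Finset.sum_add_distrib]
  refine Finset.sum_congr rfl fun f _ => ?_
  rw [← Finset.sum_add_distrib]
  refine Finset.sum_congr rfl fun f' _ => ?_
  rw [← finsum_add_distrib (Set.toFinite _) (Set.toFinite _)]
  refine finsum_congr fun w => ?_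
  rw [← mul_add]
  congr 1
  rw [← Rat.cast_add]
  congr 1
  exact finsum_add_distrib (Set.toFinite _) (Set.toFinite _)

end Pool.Agent.PP.SD.H72
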